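import Mathlib

/-!
# Graph matchbox manifolds at every finite level

For the free group `F_n` (`n ≥ 2`, generators `a, b, …`) let `T_k` be the subtree of the Cayley
graph spanned by all the products `a ^ m₀ * b ^ m₁ * a ^ m₂ * ⋯` with `k + 1` alternating factors
(`mᵢ : ℤ` arbitrary).  So `T_0` is the `a`-line, `T_1` is the comb with spine the `a`-line, and so
on.  We show that the closure of the leaf of `T_k` in the Kenyon-Ghys foliated space is a graph
matchbox manifold at level exactly `k`, for every `k`.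
-/

namespace Pool.Agent.Results.MP_598c06_an.EveryFiniteLevel

open FreeGroup Set

universe u

/-! ### The space `X` of pointed infinite subtrees -/

/-- The (unoriented, unlabelled) Cayley graph of the free group on `n` generators: `g` and `h` are
adjacent when one of them is the other one multiplied on the right by a generator. -/
def cayley (n : ℕ) : SimpleGraph (FreeGroup (Fin n)) :=
  SimpleGraph.fromRel fun g h => ∃ i : Fin n, h = g * of i

/-- `X n`: the vertex sets of the infinite connected induced subtrees containing the identity. -/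
def X (n : ℕ) : Type :=
  {V : Set (FreeGroup (Fin n)) // 1 ∈ V ∧ V.Infinite ∧ ((cayley n).induce V).Connected}

/-- The balls of radius `r` about the identity in `T` and `T'` coincide.  (A subtree of the Cayley
tree containing `1` is geodesic, so its ball of radius `r` is the set of its vertices of word
length at most `r`; an isomorphism of pointed edge-labelled balls is the identity.) -/
def Agree {n : ℕ} (r : ℕ) (T T' : X n) : Prop :=
  ∀ g : FreeGroup (Fin n), norm g ≤ r → (g ∈ T.1 ↔ g ∈ T'.1)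

/-- The topology of the metric `d_X(T, T') = exp (-r)`, `r` the largest radius for which the balls
coincide: a set is open when with each `T` it contains all trees agreeing with `T` up to some
radius. -/
instance topX (n : ℕ) : TopologicalSpace (X n) where
  IsOpen U := ∀ T ∈ U, ∃ r : ℕ, ∀ T' : X n, Agree r T T' → T' ∈ U
  isOpen_univ := fun _ _ => ⟨0, fun _ _ => mem_univ _⟩
  isOpen_inter := by
    intro U V hU hV T hT
    obtain ⟨r, hr⟩ := hU T hT.1
    obtain ⟨s, hs⟩ := hV T hT.2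
    exact ⟨max r s, fun T' h => ⟨hr T' fun g hg => h g (hg.trans (le_max_left _ _)),
      hs T' fun g hg => h g (hg.trans (le_max_right _ _))⟩⟩
  isOpen_sUnion := by
    intro S hS T hT
    obtain ⟨U, hU, hTU⟩ := hT
    obtain ⟨r, hr⟩ := hS U hU T hTU
    exact ⟨r, fun T' h => ⟨U, hU, hr T' h⟩⟩

/-- The vertex `g` of `T` becomes the new root: `g⁻¹ T = {h | g * h ∈ T}`. -/
def reroot {n : ℕ} (T : X n) (g : FreeGroup (Fin n)) (hg : g ∈ T.1) : X n :=
  ⟨{h | g * h ∈ T.1}, by simpa using hg, by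
    have h1 : {h | g * h ∈ T.1} = (fun h => g⁻¹ * h) '' T.1 := by
      ext h
      constructor
      · intro hh
        exact ⟨g * h, hh, by simp⟩
      · rintro ⟨x, hx, rfl⟩
        simpa using hx
    rw [h1]
    exact T.2.2.1.image (fun x _ y _ hxy => by simpa using hxy), by
    let e : ((cayley n).induce {h | g * h ∈ T.1}) ≃g ((cayley n).induce T.1) :=
      { toFun := fun h => ⟨g * h.1, h.2⟩
        invFun := fun v => ⟨g⁻¹ * v.1, by
          show g * (g⁻¹ * v.1) ∈ T.1
          simpa using v.2⟩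
        left_inv := fun h => by ext; simp
        right_inv := fun h => by ext; simp
        map_rel_iff' := by
          intro a b
          simp [cayley, SimpleGraph.comap, mul_assoc] }
    exact e.connected_iff.2 T.2.2.2⟩

/-- The orbit of `T` under re-rooting. -/
def orbit {n : ℕ} (T : X n) : Set (X n) := {T' | ∃ g, ∃ hg : g ∈ T.1, T' = reroot T g hg}

/-! ### Foliated spaces having `X n` as a complete transversal, and levels -/

/-- A space of Kenyon-Ghys type for `F_n`: a topological space partitioned into leaves (the classes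
of `sameLeaf`) such that saturations of open sets are open, together with a map `ι` of `X n` into it
which is a complete transversal (`ι` is continuous, the saturation of the image of an open set is
open, every leaf meets the image), in which the leaf through `ι T` meets `ι (X n)` exactly in the
trees `g⁻¹ T`, `g` a vertex of `T`. -/
structure KenyonGhys (n : ℕ) where
  /-- the points -/
  M : Type u
  /-- the topology -/
  top : TopologicalSpace M
  /-- the partition into leaves -/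
  sameLeaf : Setoid M
  /-- the saturation of an open set is open -/
  isOpen_saturation : ∀ U : Set M, IsOpen U → IsOpen {y | ∃ x ∈ U, sameLeaf x y}
  /-- the transversal -/
  ι : X n → M
  /-- the transversal is continuous -/
  continuous_ι : Continuous ι
  /-- the leaves through an open piece of the transversal fill an open set -/
  isOpen_transversal : ∀ U : Set (X n), IsOpen U → IsOpen {y | ∃ T ∈ U, sameLeaf (ι T) y}
  /-- every leaf meets the transversal -/
  complete : ∀ y, ∃ T, sameLeaf (ι T) y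
  /-- the leaf through `ι T` meets the transversal in the orbit of `T` -/
  leaf_inter : ∀ T T', sameLeaf (ι T) (ι T') ↔ ∃ g, ∃ hg : g ∈ T.1, T' = reroot T g hg

namespace KenyonGhys

variable {n : ℕ} (𝔐 : KenyonGhys.{u} n)

instance : TopologicalSpace 𝔐.M := 𝔐.top

/-- The leaf through `x`. -/
def leaf (x : 𝔐.M) : Set 𝔐.M := {y | 𝔐.sameLeaf x y}

/-- `AtLevel k A`: the closed saturated set `A` is at level `k`.  Level `0`: every leaf in `A` is
dense in `A` (`A` is minimal; this includes the compact leaves).  Level `k + 1`: the closure of the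
union of the leaves of `A` which are not dense in `A` is a proper subset of `A`, each of these
leaves is at level at most `k`, and at least one is at level `k`; here a leaf is at level `j` when
its closure is at level `j`. -/
def AtLevel : ℕ → Set 𝔐.M → Prop
  | 0, A => ∀ x ∈ A, A ⊆ closure (𝔐.leaf x)
  | k + 1, A =>
      closure {x | x ∈ A ∧ ¬ A ⊆ closure (𝔐.leaf x)} ⊂ A ∧
      (∀ x ∈ A, ¬ A ⊆ closure (𝔐.leaf x) →
        ∃ j : Fin (k + 1), AtLevel j.1 (closure (𝔐.leaf x))) ∧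
      ∃ x ∈ A, ¬ A ⊆ closure (𝔐.leaf x) ∧ AtLevel k (closure (𝔐.leaf x))
termination_by k => k
decreasing_by all_goals (first | exact j.2 | omega)

end KenyonGhys

/-! ### The trees -/

/-- Two different generators `a = of 0` (for `true`) and `b = of 1` (for `false`). -/
def letter (n : ℕ) (hn : 2 ≤ n) : Bool → Fin n
  | true => ⟨0, by omega⟩
  | false => ⟨1, by omega⟩

/-- `syll ℓ k c` is the set of the products `x₁ * x₂ * ⋯ * x_k` where `x₁, x₃, …` are powers of the
generator `of (ℓ c)` and `x₂, x₄, …` are powers of the generator `of (ℓ (!c))`. -/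
def syll {n : ℕ} (ℓ : Bool → Fin n) : ℕ → Bool → Set (FreeGroup (Fin n))
  | 0, _ => {1}
  | k + 1, c => {g | ∃ m : ℤ, ∃ h ∈ syll ℓ k (!c), g = of (ℓ c) ^ m * h}

section trees

variable {n : ℕ} (ℓ : Bool → Fin n)

lemma one_mem_syll : ∀ (k : ℕ) (c : Bool), (1 : FreeGroup (Fin n)) ∈ syll ℓ k c
  | 0, _ => rfl
  | k + 1, c => ⟨0, 1, one_mem_syll k (!c), by simp⟩

lemma mul_mem_syll {k : ℕ} {c : Bool} {g : FreeGroup (Fin n)} (m : ℤ)
    (hg : g ∈ syll ℓ (k + 1) c) : of (ℓ c) ^ m * g ∈ syll ℓ (k + 1) c := by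
  obtain ⟨l, h, hh, rfl⟩ := hg
  exact ⟨m + l, h, hh, by rw [zpow_add, mul_assoc]⟩

lemma mul_mem_syll_iff {k : ℕ} {c : Bool} {g : FreeGroup (Fin n)} (m : ℤ) :
    of (ℓ c) ^ m * g ∈ syll ℓ (k + 1) c ↔ g ∈ syll ℓ (k + 1) c := by
  refine ⟨fun h => ?_, mul_mem_syll ℓ m⟩
  have := mul_mem_syll ℓ (-m) h
  simpa using this

lemma syll_flip_subset (k : ℕ) (c : Bool) : syll ℓ k (!c) ⊆ syll ℓ (k + 1) c :=
  fun g hg => ⟨0, g, hg, by simp⟩

lemma syll_subset_succ : ∀ (k : ℕ) (c : Bool), syll ℓ k c ⊆ syll ℓ (k + 1) c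
  | 0, c => by
    intro g hg
    have : g = 1 := hg
    rw [this]
    exact one_mem_syll ℓ _ _
  | k + 1, c => by
    rintro g ⟨m, h, hh, rfl⟩
    exact ⟨m, h, syll_subset_succ k (!c) hh, rfl⟩

lemma zpow_mem_syll (k : ℕ) (c : Bool) (m : ℤ) : of (ℓ c) ^ m ∈ syll ℓ (k + 1) c :=
  ⟨m, 1, one_mem_syll ℓ _ _, by simp⟩

lemma syll_infinite (k : ℕ) (c : Bool) : (syll ℓ (k + 1) c).Infinite := by
  refine Set.infinite_of_injective_forall_mem (f := fun m : ℕ => of (ℓ c) ^ m) ?_ ?_
  · intro a b hab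
    have := congrArg FreeGroup.norm hab
    simpa using this
  · intro m
    have := zpow_mem_syll ℓ k c (m : ℤ)
    simpa using this

lemma adj_mul_of {n : ℕ} (g : FreeGroup (Fin n)) (i : Fin n) : (cayley n).Adj g (g * of i) := by
  simp only [cayley, SimpleGraph.fromRel_adj]
  refine ⟨fun h => ?_, Or.inl ⟨i, rfl⟩⟩
  have : of i = (1 : FreeGroup (Fin n)) := by simpa using h.symm
  simp at this

lemma reach_pow (V : Set (FreeGroup (Fin n))) (i : Fin n) (g : FreeGroup (Fin n))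
    (hV : ∀ m : ℤ, g * of i ^ m ∈ V) (m : ℤ) :
    ((cayley n).induce V).Reachable ⟨g, by simpa using hV 0⟩ ⟨g * of i ^ m, hV m⟩ := by
  have step : ∀ j : ℤ, ((cayley n).induce V).Adj ⟨g * of i ^ j, hV j⟩
      ⟨g * of i ^ (j + 1), hV (j + 1)⟩ := by
    intro j
    rw [SimpleGraph.comap_adj]
    have := adj_mul_of (g * of i ^ j) i
    simpa [zpow_add, mul_assoc] using this
  induction m using Int.induction_on with
  | zero =>
    have : (⟨g * of i ^ (0 : ℤ), hV 0⟩ : V) = ⟨g, by simpa using hV 0⟩ := by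
      ext; simp
    rw [this]
  | succ j ih => exact ih.trans (step _).reachable
  | pred j ih =>
    refine ih.trans ?_
    have h := (step (-(j : ℤ) - 1)).symm.reachable
    have e : (⟨g * of i ^ (-(j : ℤ) - 1 + 1), hV _⟩ : V) = ⟨g * of i ^ (-(j : ℤ)), hV _⟩ := by
      ext; simp
    rwa [e] at h

lemma reach_syll (V : Set (FreeGroup (Fin n))) : ∀ (k : ℕ) (c : Bool) (g : FreeGroup (Fin n))
    (hV : ∀ h ∈ syll ℓ k c, g * h ∈ V) (h : FreeGroup (Fin n)) (hh : h ∈ syll ℓ k c),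
    ((cayley n).induce V).Reachable ⟨g, by simpa using hV 1 (one_mem_syll ℓ k c)⟩
      ⟨g * h, hV h hh⟩
  | 0, c, g, hV, h, hh => by
    have h1 : h = 1 := hh
    have : (⟨g * h, hV h hh⟩ : V) = ⟨g, by simpa using hV 1 (one_mem_syll ℓ 0 c)⟩ := by
      ext; simp [h1]
    rw [this]
  | k + 1, c, g, hV, h, hh => by
    have hh' := hh
    obtain ⟨m, h', hh1, rfl⟩ := hh'
    have r1 := reach_pow V (ℓ c) g (fun m => hV _ (zpow_mem_syll ℓ k c m)) m
    have r2 := reach_syll V k (!c) (g * of (ℓ c) ^ m) (fun x hx => by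
      rw [mul_assoc]
      exact hV _ ⟨m, x, hx, rfl⟩) h' hh1
    have e : (⟨g * (of (ℓ c) ^ m * h'), hV _ hh⟩ : V) =
        ⟨g * of (ℓ c) ^ m * h', by rw [mul_assoc]; exact hV _ hh⟩ := by
      ext; simp [mul_assoc]
    rw [e]
    exact r1.trans r2

lemma syll_connected (k : ℕ) (c : Bool) : ((cayley n).induce (syll ℓ k c)).Connected := by
  have : Nonempty (syll ℓ k c) := ⟨⟨1, one_mem_syll ℓ k c⟩⟩
  have key : ∀ x : syll ℓ k c, ((cayley n).induce (syll ℓ k c)).Reachable
      ⟨1, one_mem_syll ℓ k c⟩ x := by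
    intro x
    have := reach_syll ℓ (syll ℓ k c) k c 1 (fun h hh => by simpa using hh) x.1 x.2
    have e : (⟨1 * x.1, by simpa using x.2⟩ : syll ℓ k c) = x := by ext; simp
    rwa [e] at this
  exact ⟨fun x y => (key x).symm.trans (key y)⟩


/-! ### First letters -/

/-- The reduced word of `g` starts with the generator `i` or its inverse. -/
def Starts (i : Fin n) (g : FreeGroup (Fin n)) : Prop := ∃ b L, g.toWord = (i, b) :: L

lemma toWord_of_zpow (i : Fin n) (m : ℤ) (hm : m ≠ 0) :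
    ∃ b : Bool, (of i ^ m).toWord = List.replicate m.natAbs (i, b) := by
  rcases lt_or_gt_of_ne hm with h | h
  · obtain ⟨k, rfl⟩ : ∃ k : ℕ, m = -(k : ℤ) := ⟨m.natAbs, by omega⟩
    refine ⟨false, ?_⟩
    simp only [zpow_neg, zpow_natCast, toWord_inv, toWord_of_pow, Int.natAbs_neg, Int.natAbs_natCast]
    simp [invRev]
  · obtain ⟨k, rfl⟩ : ∃ k : ℕ, m = (k : ℤ) := ⟨m.natAbs, by omega⟩
    exact ⟨true, by simp⟩

lemma not_starts_one (i : Fin n) : ¬ Starts i (1 : FreeGroup (Fin n)) := by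
  rintro ⟨b, L, h⟩
  simp at h

lemma starts_zpow_mul (i : Fin n) (m : ℤ) (hm : m ≠ 0) (h : FreeGroup (Fin n))
    (hh : ¬ Starts i h) : Starts i (of i ^ m * h) := by
  obtain ⟨b, hb⟩ := toWord_of_zpow i m hm
  have hred : FreeGroup.IsReduced ((of i ^ m).toWord ++ h.toWord) := by
    rw [FreeGroup.IsReduced, List.isChain_append]
    refine ⟨isReduced_toWord, isReduced_toWord, ?_⟩
    intro x hx y hy hxy
    exfalso
    rw [hb] at hx
    have hx1 : x = (i, b) := by
      have := List.mem_of_mem_getLast? hx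
      exact List.eq_of_mem_replicate this
    apply hh
    rw [hx1] at hxy
    cases hw : h.toWord with
    | nil => rw [hw] at hy; simp at hy
    | cons z L =>
      rw [hw] at hy
      simp only [List.head?_cons, Option.mem_def, Option.some.injEq] at hy
      refine ⟨z.2, L, ?_⟩
      rw [hw]
      congr 1
      ext
      · rw [hy, ← hxy]
      · rfl
  have h2 : (of i ^ m * h).toWord = (of i ^ m).toWord ++ h.toWord := by
    rw [toWord_mul, hred.reduce_eq]
  obtain ⟨p, hp⟩ : ∃ p, m.natAbs = p + 1 := ⟨m.natAbs - 1, by omega⟩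
  rw [hb, hp, List.replicate_succ] at h2
  exact ⟨b, _, h2⟩

lemma norm_inv_mul_of_starts {i j : Fin n} (hij : i ≠ j) {h w : FreeGroup (Fin n)}
    (hh : Starts i h) (hw : Starts j w) : FreeGroup.norm (h⁻¹ * w) = FreeGroup.norm h + FreeGroup.norm w := by
  obtain ⟨b, L, hb⟩ := hh
  obtain ⟨b', L', hb'⟩ := hw
  have hred : FreeGroup.IsReduced ((h⁻¹).toWord ++ w.toWord) := by
    rw [FreeGroup.IsReduced, List.isChain_append]
    refine ⟨isReduced_toWord, isReduced_toWord, ?_⟩
    intro x hx y hy hxy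
    exfalso
    rw [toWord_inv, hb] at hx
    rw [hb'] at hy
    simp [invRev] at hx hy
    apply hij
    rw [← hx, ← hy] at hxy
    exact hxy
  have h2 : (h⁻¹ * w).toWord = (h⁻¹).toWord ++ w.toWord := by
    rw [toWord_mul, hred.reduce_eq]
  show (h⁻¹ * w).toWord.length = _
  rw [h2, List.length_append]
  show FreeGroup.norm h⁻¹ + FreeGroup.norm w = _
  rw [norm_inv_eq]

lemma mem_flip_of_not_starts (hℓ : ∀ c, ℓ c ≠ ℓ (!c)) : ∀ (k : ℕ) (c : Bool) (g : FreeGroup (Fin n)),
    g ∈ syll ℓ (k + 1) c → ¬ Starts (ℓ c) g → g ∈ syll ℓ k (!c) := by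
  intro k
  induction k with
  | zero =>
    rintro c g ⟨m, h, hh, rfl⟩ hs
    have h1 : h = 1 := hh
    subst h1
    by_cases hm : m = 0
    · subst hm
      simp [syll]
    · exact absurd (starts_zpow_mul (ℓ c) m hm 1 (not_starts_one _)) hs
  | succ k ih =>
    rintro c g ⟨m, h, hh, rfl⟩ hs
    by_cases hsh : Starts (ℓ c) h
    · have hns : ¬ Starts (ℓ (!c)) h := by
        rintro ⟨b', L', h'⟩
        obtain ⟨b, L, h''⟩ := hsh
        rw [h'] at h''
        have := congrArg (fun l : List (Fin n × Bool) => l.head?) h''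
        simp at this
        exact hℓ c this.1.symm
      have h1 := ih (!c) h hh hns
      rw [Bool.not_not] at h1
      cases k with
      | zero =>
        have h2 : h = 1 := h1
        exact absurd hsh (by rw [h2]; exact not_starts_one _)
      | succ k =>
        have h2 := mul_mem_syll ℓ m h1
        have h3 := syll_flip_subset ℓ (k + 1) (!c)
        rw [Bool.not_not] at h3
        exact h3 h2
    · by_cases hm : m = 0
      · subst hm
        simpa using hh
      · exact absurd (starts_zpow_mul (ℓ c) m hm h hsh) hs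


/-- Normal form of the vertices, up to the symmetry of the tree. -/
lemma exists_good (hℓ : ∀ c, ℓ c ≠ ℓ (!c)) : ∀ (k : ℕ) (c : Bool) (g : FreeGroup (Fin n)),
    g ∈ syll ℓ (k + 1) c →
      ∃ m : ℤ, ∃ h ∈ syll ℓ k (!c), g = of (ℓ c) ^ m * h ∧ (h = 1 ∨ Starts (ℓ (!c)) h) := by
  intro k
  induction k using Nat.strong_induction_on with
  | _ k ih =>
    rintro c g ⟨m, h, hh, rfl⟩
    by_cases hgood : h = 1 ∨ Starts (ℓ (!c)) h
    · exact ⟨m, h, hh, rfl, hgood⟩
    · rw [not_or] at hgood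
      cases k with
      | zero => exact absurd hh hgood.1
      | succ k =>
        have h1 := mem_flip_of_not_starts ℓ hℓ k (!c) h hh hgood.2
        rw [Bool.not_not] at h1
        cases k with
        | zero => exact absurd h1 hgood.1
        | succ k =>
          have h2 := mul_mem_syll ℓ m h1
          obtain ⟨m', h', hh', he, hg'⟩ := ih k (by omega) c _ h2
          refine ⟨m', h', ?_, he, hg'⟩
          exact syll_subset_succ ℓ _ _ (syll_subset_succ ℓ _ _ hh')

/-- The ball lemma: around a vertex `h` starting with the second generator, the two trees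
`syll (k + 1) c` and `syll k (!c)` agree up to radius the norm of `h`. -/
lemma ball (hℓ : ∀ c, ℓ c ≠ ℓ (!c)) (k : ℕ) (c : Bool) (h u : FreeGroup (Fin n))
    (hs : Starts (ℓ (!c)) h) (hu : FreeGroup.norm u ≤ FreeGroup.norm h) :
    h * u ∈ syll ℓ (k + 1) c ↔ h * u ∈ syll ℓ k (!c) := by
  refine ⟨fun hm => ?_, fun hm => syll_flip_subset ℓ k c hm⟩
  apply mem_flip_of_not_starts ℓ hℓ k c _ hm
  intro hst
  have h1 := norm_inv_mul_of_starts (hℓ c).symm hs hst
  rw [inv_mul_cancel_left] at h1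
  have h2 : FreeGroup.norm (h * u) = 0 := by omega
  rw [FreeGroup.norm_eq_zero] at h2
  rw [h2] at hst
  exact not_starts_one _ hst

/-- The tree spanned by the products of `k + 1` alternating powers of the two generators, the first
factor being a power of `of (ℓ c)`. -/
def syllTree (k : ℕ) (c : Bool) : X n :=
  ⟨syll ℓ (k + 1) c, one_mem_syll ℓ _ _, syll_infinite ℓ k c, syll_connected ℓ _ _⟩

end trees

/-- The tree `T_k` of `F_n`: its vertices are all the products `a ^ m₀ * b ^ m₁ * a ^ m₂ * ⋯` with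
`k + 1` factors, alternately powers of `a` and of `b`. -/
def tree (n : ℕ) (hn : 2 ≤ n) (k : ℕ) : X n := syllTree (letter n hn) k true

/-! ### The topology of `X n` -/

section topology

variable {n : ℕ}

lemma agree_refl (r : ℕ) (T : X n) : Agree r T T := fun _ _ => Iff.rfl

lemma Agree.symm {r : ℕ} {T T' : X n} (h : Agree r T T') : Agree r T' T :=
  fun g hg => (h g hg).symm

lemma Agree.trans {r : ℕ} {T T' T'' : X n} (h : Agree r T T') (h' : Agree r T' T'') :
    Agree r T T'' := fun g hg => (h g hg).trans (h' g hg)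

lemma Agree.mono {r s : ℕ} {T T' : X n} (h : Agree s T T') (hrs : r ≤ s) : Agree r T T' :=
  fun g hg => h g (hg.trans hrs)

lemma eq_of_agree {T T' : X n} (h : ∀ r, Agree r T T') : T = T' := by
  apply Subtype.ext
  ext g
  exact h _ g le_rfl

lemma isOpen_iff {U : Set (X n)} :
    IsOpen U ↔ ∀ T ∈ U, ∃ r : ℕ, ∀ T' : X n, Agree r T T' → T' ∈ U := Iff.rfl

lemma mem_closure_iff_agree {S : Set (X n)} {T : X n} :
    T ∈ closure S ↔ ∀ r, ∃ T' ∈ S, Agree r T T' := by
  rw [_root_.mem_closure_iff]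
  constructor
  · intro h r
    obtain ⟨T', h1, h2⟩ := h {T' | Agree r T T'}
      (isOpen_iff.2 fun T' hT' => ⟨r, fun T'' h => Agree.trans hT' h⟩) (agree_refl r T)
    exact ⟨T', h2, h1⟩
  · intro h U hU hT
    obtain ⟨r, hr⟩ := isOpen_iff.1 hU T hT
    obtain ⟨T', h1, h2⟩ := h r
    exact ⟨T', hr T' h2, h1⟩

lemma finite_norm_le (n r : ℕ) : {g : FreeGroup (Fin n) | FreeGroup.norm g ≤ r}.Finite := by
  have h := List.finite_length_le (Fin n × Bool) r
  refine Set.Finite.of_finite_image (f := FreeGroup.toWord) (h.subset ?_)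
    (toWord_injective.injOn)
  rintro _ ⟨g, hg, rfl⟩
  exact hg

end topology

section closure

variable {n : ℕ} (ℓ : Bool → Fin n)

lemma mem_orbit_syllTree (hℓ : ∀ c, ℓ c ≠ ℓ (!c)) {k : ℕ} {c : Bool} {T : X n}
    (hT : T ∈ orbit (syllTree ℓ k c)) :
    ∃ h ∈ syll ℓ k (!c), ∃ hh : h ∈ (syllTree ℓ k c).1,
      T = reroot (syllTree ℓ k c) h hh ∧ (h = 1 ∨ Starts (ℓ (!c)) h) := by
  obtain ⟨g, hg, rfl⟩ := hT
  obtain ⟨m, h, hh, rfl, hgood⟩ := exists_good ℓ hℓ k c g hg
  refine ⟨h, hh, syll_flip_subset ℓ k c hh, ?_, hgood⟩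
  apply Subtype.ext
  ext x
  show of (ℓ c) ^ m * h * x ∈ syll ℓ (k + 1) c ↔ h * x ∈ syll ℓ (k + 1) c
  rw [mul_assoc, mul_mem_syll_iff]

/-- Limits of the orbit of `syllTree (k + 1) c`. -/
lemma closure_orbit_subset (hℓ : ∀ c, ℓ c ≠ ℓ (!c)) (k : ℕ) (c : Bool) :
    closure (orbit (syllTree ℓ (k + 1) c)) ⊆
      orbit (syllTree ℓ (k + 1) c) ∪ closure (orbit (syllTree ℓ k (!c))) := by
  intro T hT
  by_contra hcon
  rw [mem_union, not_or] at hcon
  obtain ⟨h1, h2⟩ := hcon
  rw [mem_closure_iff_agree] at hT h2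
  push Not at h2
  obtain ⟨r₀, hr₀⟩ := h2
  have h3 : ∀ g : FreeGroup (Fin n), ∃ r : ℕ, ∀ hg : g ∈ (syllTree ℓ (k + 1) c).1,
      ¬ Agree r T (reroot (syllTree ℓ (k + 1) c) g hg) := by
    intro g
    by_contra hcon
    push Not at hcon
    obtain ⟨hg, _⟩ := hcon 0
    apply h1
    refine ⟨g, hg, eq_of_agree fun r => ?_⟩
    obtain ⟨hg', h⟩ := hcon r
    exact h
  choose f hf using h3
  obtain ⟨R, hR⟩ := ((finite_norm_le n r₀).image f).bddAbove
  obtain ⟨T', hT', hag⟩ := hT (max R r₀)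
  obtain ⟨h, hh, hh', rfl, hgood⟩ := mem_orbit_syllTree ℓ hℓ hT'
  by_cases hn : FreeGroup.norm h ≤ r₀
  · have h4 : f h ≤ R := hR ⟨h, hn, rfl⟩
    exact hf h hh' (hag.mono (h4.trans (le_max_left _ _)))
  · push Not at hn
    rcases hgood with rfl | hs
    · simp at hn
    · apply hr₀ (reroot (syllTree ℓ k (!c)) h hh) ⟨h, hh, rfl⟩
      refine Agree.trans (hag.mono (le_max_right _ _)) ?_
      intro u hu
      exact ball ℓ hℓ (k + 1) c h u hs (hu.trans hn.le)

/-- The smaller tree is a limit of the orbit of the larger one. -/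
lemma syllTree_mem_closure (hℓ : ∀ c, ℓ c ≠ ℓ (!c)) (k : ℕ) (c : Bool) :
    syllTree ℓ k (!c) ∈ closure (orbit (syllTree ℓ (k + 1) c)) := by
  rw [mem_closure_iff_agree]
  intro r
  have hmem : of (ℓ (!c)) ^ (r + 1) ∈ syll ℓ (k + 1) (!c) := by
    have := zpow_mem_syll ℓ k (!c) ((r + 1 : ℕ) : ℤ)
    rwa [zpow_natCast] at this
  refine ⟨reroot (syllTree ℓ (k + 1) c) (of (ℓ (!c)) ^ (r + 1))
    (syll_flip_subset ℓ (k + 1) c hmem), ⟨_, _, rfl⟩, ?_⟩
  intro u hu
  have hs : Starts (ℓ (!c)) (of (ℓ (!c)) ^ (r + 1)) :=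
    ⟨true, List.replicate r (ℓ (!c), true), by rw [toWord_of_pow, List.replicate_succ]⟩
  have hb := ball ℓ hℓ (k + 1) c (of (ℓ (!c)) ^ (r + 1)) u hs (by rw [norm_of_pow]; omega)
  refine Iff.trans ?_ hb.symm
  have := mul_mem_syll_iff ℓ (k := k) (c := !c) (g := u) ((r + 1 : ℕ) : ℤ)
  rw [zpow_natCast] at this
  exact this.symm

/-- The line is alone in its orbit. -/
lemma orbit_syllTree_zero (c : Bool) : orbit (syllTree ℓ 0 c) = {syllTree ℓ 0 c} := by
  ext T
  constructor
  · rintro ⟨g, hg, rfl⟩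
    obtain ⟨m, h, hh, rfl⟩ := hg
    have h1 : h = 1 := hh
    subst h1
    apply Subtype.ext
    ext x
    show of (ℓ c) ^ m * 1 * x ∈ syll ℓ (0 + 1) c ↔ x ∈ syll ℓ (0 + 1) c
    rw [mul_one, mul_mem_syll_iff]
  · rintro rfl
    exact ⟨1, one_mem_syll ℓ _ _, Subtype.ext (by ext x; simp [reroot])⟩

lemma closure_orbit_syllTree_zero (c : Bool) :
    closure (orbit (syllTree ℓ 0 c)) = {syllTree ℓ 0 c} := by
  rw [orbit_syllTree_zero]
  ext T
  rw [mem_closure_iff_agree]
  constructor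
  · intro h
    refine eq_of_agree fun r => ?_
    obtain ⟨T', h1, h2⟩ := h r
    rw [h1] at h2
    exact h2
  · rintro rfl r
    exact ⟨_, rfl, agree_refl _ _⟩

end closure

/-! ### Counting syllables with polynomial degrees -/

section degree

open Polynomial

/-- The transvection adding `m * X` times the other coordinate to the coordinate `c`. -/
noncomputable def E (c : Bool) (m : ℤ) : Equiv.Perm (Bool → ℤ[X]) where
  toFun v := Function.update v c (v c + C m * Polynomial.X * v (!c))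
  invFun v := Function.update v c (v c - C m * Polynomial.X * v (!c))
  left_inv v := by
    ext1 d
    rcases Bool.eq_or_eq_not d c with rfl | rfl <;> simp
  right_inv v := by
    ext1 d
    rcases Bool.eq_or_eq_not d c with rfl | rfl <;> simp

lemma E_same (c : Bool) (m : ℤ) (v : Bool → ℤ[X]) :
    E c m v c = v c + C m * Polynomial.X * v (!c) := by simp [E]

lemma E_other (c : Bool) (m : ℤ) (v : Bool → ℤ[X]) : E c m v (!c) = v (!c) := by simp [E]

lemma E_mul (c : Bool) (m l : ℤ) : E c m * E c l = E c (m + l) := by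
  ext1 v
  ext1 d
  rcases Bool.eq_or_eq_not d c with rfl | rfl
  · simp [Equiv.Perm.mul_apply, E]
    ring
  · simp [Equiv.Perm.mul_apply, E]

lemma E_zero (c : Bool) : E c 0 = 1 := by
  ext1 v
  ext1 d
  rcases Bool.eq_or_eq_not d c with rfl | rfl <;> simp [E]

lemma E_one_zpow (c : Bool) (m : ℤ) : E c 1 ^ m = E c m := by
  induction m using Int.induction_on with
  | zero => rw [zpow_zero, E_zero]
  | succ j ih => rw [zpow_add_one, ih, E_mul]
  | pred j ih =>
    have h : (E c 1)⁻¹ = E c (-1) := by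
      rw [inv_eq_iff_mul_eq_one, E_mul]
      norm_num [E_zero]
    rw [zpow_sub_one, ih, h, E_mul]
    rfl

variable {n : ℕ} (ℓ : Bool → Fin n)

/-- The representation of the free group by transvections. -/
noncomputable def rho : FreeGroup (Fin n) →* Equiv.Perm (Bool → ℤ[X]) :=
  FreeGroup.lift fun i => if i = ℓ true then E true 1 else if i = ℓ false then E false 1 else 1

lemma rho_zpow (hℓ : ∀ c, ℓ c ≠ ℓ (!c)) (c : Bool) (m : ℤ) :
    rho ℓ (of (ℓ c) ^ m) = E c m := by
  rw [map_zpow, ← E_one_zpow]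
  congr 1
  have h1 : ℓ false ≠ ℓ true := hℓ false
  cases c
  · simp [rho, h1]
  · simp [rho]

/-- Both coordinates have degree at most `d`. -/
def Bd (d : ℕ) (v : Bool → ℤ[X]) : Prop := ∀ c, (v c).natDegree ≤ d

lemma natDegree_CXmul (m : ℤ) (p : ℤ[X]) : (C m * Polynomial.X * p).natDegree ≤ p.natDegree + 1 := by
  refine natDegree_mul_le.trans ?_
  have : (C m * Polynomial.X : ℤ[X]).natDegree ≤ 1 := (natDegree_C_mul_le m _).trans natDegree_X_le
  omega

lemma Bd.mono {d e : ℕ} {v : Bool → ℤ[X]} (h : Bd d v) (hde : d ≤ e) : Bd e v :=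
  fun c => (h c).trans hde

lemma Bd.E {d : ℕ} {v : Bool → ℤ[X]} (h : Bd d v) (c : Bool) (m : ℤ) : Bd (d + 1) (E c m v) := by
  intro d'
  rcases Bool.eq_or_eq_not d' c with rfl | rfl
  · rw [E_same]
    refine (natDegree_add_le _ _).trans (max_le ((h _).trans (Nat.le_succ _)) ?_)
    exact (natDegree_CXmul _ _).trans (Nat.succ_le_succ (h _))
  · rw [E_other]
    exact (h _).trans (Nat.le_succ _)

lemma Bd.rho_app (hℓ : ∀ c, ℓ c ≠ ℓ (!c)) : ∀ (k : ℕ) (c : Bool) (g : FreeGroup (Fin n)),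
    g ∈ syll ℓ k c → ∀ (d : ℕ) (v : Bool → ℤ[X]), Bd d v →
      Bd (d + k) (rho ℓ g v) ∧ Bd (d + k) (rho ℓ g⁻¹ v)
  | 0, c, g, hg, d, v, hv => by
    have h1 : g = 1 := hg
    subst h1
    simpa using hv
  | k + 1, c, g, hg, d, v, hv => by
    obtain ⟨m, h, hh, rfl⟩ := hg
    constructor
    · rw [_root_.map_mul, Equiv.Perm.mul_apply, rho_zpow ℓ hℓ]
      exact ((Bd.rho_app hℓ k (!c) h hh d v hv).1).E c m
    · rw [mul_inv_rev, _root_.map_mul, Equiv.Perm.mul_apply, ← zpow_neg, rho_zpow ℓ hℓ]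
      have h1 := hv.E c (-m)
      have h2 := (Bd.rho_app hℓ k (!c) h hh (d + 1) _ h1).2
      rw [show d + (k + 1) = d + 1 + k by ring]
      exact h2

lemma Bd.rho_two (hℓ : ∀ c, ℓ c ≠ ℓ (!c)) (k : ℕ) (c : Bool) (x y : FreeGroup (Fin n))
    (hx : x ∈ syll ℓ (k + 1) c) (hy : y ∈ syll ℓ (k + 1) c) (d : ℕ) (v : Bool → ℤ[X])
    (hv : Bd d v) : Bd (d + (2 * k + 1)) (rho ℓ (x⁻¹ * y) v) := by
  obtain ⟨m, x', hx', rfl⟩ := hx
  obtain ⟨l, y', hy', rfl⟩ := hy
  have e : (of (ℓ c) ^ m * x')⁻¹ * (of (ℓ c) ^ l * y') =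
      x'⁻¹ * (of (ℓ c) ^ (l - m) * y') := by
    rw [zpow_sub]
    have : of (ℓ c) ^ l * (of (ℓ c) ^ m)⁻¹ = (of (ℓ c) ^ m)⁻¹ * of (ℓ c) ^ l := by
      rw [← zpow_neg, ← zpow_add, ← zpow_add, add_comm]
    rw [this]
    group
  rw [e, _root_.map_mul, _root_.map_mul, Equiv.Perm.mul_apply, Equiv.Perm.mul_apply, rho_zpow ℓ hℓ]
  have h1 := (Bd.rho_app ℓ hℓ k (!c) y' hy' d v hv).1
  have h2 := h1.E c (l - m)
  have h3 := (Bd.rho_app ℓ hℓ k (!c) x' hx' _ _ h2).2
  exact h3.mono (by omega)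

/-- The coordinate `c` dominates: it has degree `d`, the other one a smaller degree. -/
def Dom (d : ℕ) (c : Bool) (v : Bool → ℤ[X]) : Prop :=
  (v c).natDegree = d ∧ (v (!c)).natDegree < d

lemma Dom.E {d : ℕ} {c : Bool} {v : Bool → ℤ[X]} (h : Dom d (!c) v) (m : ℤ) (hm : m ≠ 0) :
    Dom (d + 1) c (E c m v) := by
  obtain ⟨h1, h2⟩ := h
  rw [Bool.not_not] at h2
  constructor
  · rw [E_same]
    have h0 : v (!c) ≠ 0 := by
      intro h0
      rw [h0, natDegree_zero] at h1
      omega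
    have h3 : (C m * Polynomial.X * v (!c)).natDegree = d + 1 := by
      rw [natDegree_mul (by simpa using hm) h0, natDegree_C_mul_X m hm, h1]
      ring
    rw [natDegree_add_eq_right_of_natDegree_lt (by omega), h3]
  · rw [E_other, h1]
    omega

/-- The alternating word with `j` letters, the first one being `of (ℓ c)`. -/
def alt : ℕ → Bool → FreeGroup (Fin n)
  | 0, _ => 1
  | j + 1, c => of (ℓ c) * alt j (!c)

lemma alt_mem : ∀ (j : ℕ) (c : Bool), alt ℓ j c ∈ syll ℓ j c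
  | 0, _ => rfl
  | j + 1, c => ⟨1, alt ℓ j (!c), alt_mem j (!c), by simp [alt]⟩

lemma dom_alt (hℓ : ∀ c, ℓ c ≠ ℓ (!c)) : ∀ (j : ℕ) (c : Bool),
    Dom (j + 1) c (rho ℓ (alt ℓ (j + 1) c) (fun _ => 1))
  | 0, c => by
    have h : rho ℓ (alt ℓ 1 c) = E c 1 := by
      rw [← rho_zpow ℓ hℓ]
      simp [alt]
    rw [h]
    constructor
    · rw [E_same]
      have h3 : (C 1 * Polynomial.X * 1 : ℤ[X]).natDegree = 1 := by simp
      have h4 : (1 : ℤ[X]).natDegree = 0 := natDegree_one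
      rw [natDegree_add_eq_right_of_natDegree_lt (by omega), h3]
    · rw [E_other, natDegree_one]
      omega
  | j + 1, c => by
    have h := dom_alt hℓ j (!c)
    have e : alt ℓ (j + 1 + 1) c = of (ℓ c) ^ (1 : ℤ) * alt ℓ (j + 1) (!c) := by
      rw [zpow_one]
      rfl
    rw [e, _root_.map_mul, rho_zpow ℓ hℓ, Equiv.Perm.mul_apply]
    exact h.E 1 one_ne_zero

lemma dom_alt_inv (hℓ : ∀ c, ℓ c ≠ ℓ (!c)) : ∀ (j : ℕ) (c : Bool) (d : ℕ) (v : Bool → ℤ[X]),
    Dom d (!c) v → ∃ c', Dom (d + j) c' (rho ℓ (alt ℓ j c)⁻¹ v)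
  | 0, c, d, v, h => ⟨!c, by simpa [alt] using h⟩
  | j + 1, c, d, v, h => by
    have h1 := h.E (-1) (by norm_num)
    have h2 := dom_alt_inv hℓ j (!c) (d + 1) _ (by rw [Bool.not_not]; exact h1)
    obtain ⟨c', h3⟩ := h2
    refine ⟨c', ?_⟩
    have e : (alt ℓ (j + 1) c)⁻¹ = (alt ℓ j (!c))⁻¹ * of (ℓ c) ^ (-1 : ℤ) := by
      rw [zpow_neg_one, ← mul_inv_rev]
      rfl
    rw [e, _root_.map_mul, rho_zpow ℓ hℓ, Equiv.Perm.mul_apply, show d + (j + 1) = d + 1 + j by ring]
    exact h3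

/-- The larger tree is not a limit of translates of the smaller one. -/
lemma syllTree_not_mem_closure (hℓ : ∀ c, ℓ c ≠ ℓ (!c)) (k : ℕ) (c : Bool) :
    syllTree ℓ (k + 1) c ∉ closure (orbit (syllTree ℓ k (!c))) := by
  intro hmem
  rw [mem_closure_iff_agree] at hmem
  have hx : alt ℓ (k + 1) (!c) ∈ syll ℓ (k + 1 + 1) c :=
    syll_flip_subset ℓ (k + 1) c (alt_mem ℓ (k + 1) (!c))
  have hy : of (ℓ c) * alt ℓ (k + 1) (!c) ∈ syll ℓ (k + 1 + 1) c := alt_mem ℓ (k + 1 + 1) c
  obtain ⟨T', ⟨u, hu, rfl⟩, hag⟩ := hmem (max (FreeGroup.norm (alt ℓ (k + 1) (!c)))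
    (FreeGroup.norm (of (ℓ c) * alt ℓ (k + 1) (!c))))
  have hx' : u * alt ℓ (k + 1) (!c) ∈ syll ℓ (k + 1) (!c) :=
    (hag _ (le_max_left _ _)).1 hx
  have hy' : u * (of (ℓ c) * alt ℓ (k + 1) (!c)) ∈ syll ℓ (k + 1) (!c) :=
    (hag _ (le_max_right _ _)).1 hy
  have hb := Bd.rho_two ℓ hℓ k (!c) _ _ hx' hy' 0 (fun _ => 1)
    (fun _ => by simp)
  have e : (u * alt ℓ (k + 1) (!c))⁻¹ * (u * (of (ℓ c) * alt ℓ (k + 1) (!c))) =
      (alt ℓ (k + 1) (!c))⁻¹ * alt ℓ (k + 1 + 1) c := by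
    rw [mul_inv_rev, mul_assoc, inv_mul_cancel_left]
    rfl
  rw [e, _root_.map_mul, Equiv.Perm.mul_apply] at hb
  have h1 := dom_alt ℓ hℓ (k + 1) c
  obtain ⟨c', h2⟩ := dom_alt_inv ℓ hℓ (k + 1) (!c) _ _ (by rw [Bool.not_not]; exact h1)
  have h3 := hb c'
  have h4 := h2.1
  omega

end degree

/-! ### Levels -/

namespace KenyonGhys

variable {n : ℕ} (𝔐 : KenyonGhys.{u} n)

lemma mem_leaf_self (x : 𝔐.M) : x ∈ 𝔐.leaf x := 𝔐.sameLeaf.refl x

lemma leaf_eq {x y : 𝔐.M} (h : 𝔐.sameLeaf x y) : 𝔐.leaf x = 𝔐.leaf y := by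
  ext z
  exact ⟨fun hz => 𝔐.sameLeaf.trans (𝔐.sameLeaf.symm h) hz, fun hz => 𝔐.sameLeaf.trans h hz⟩

lemma closure_leaf_saturated {x y z : 𝔐.M} (hy : y ∈ closure (𝔐.leaf x))
    (hyz : 𝔐.sameLeaf y z) : z ∈ closure (𝔐.leaf x) := by
  rw [_root_.mem_closure_iff] at hy ⊢
  intro U hU hz
  obtain ⟨s, ⟨w, hw, hws⟩, hs⟩ := hy _ (𝔐.isOpen_saturation U hU)
    ⟨z, hz, 𝔐.sameLeaf.symm hyz⟩
  exact ⟨w, hw, 𝔐.sameLeaf.trans hs (𝔐.sameLeaf.symm hws)⟩

lemma closure_leaf_subset {x y : 𝔐.M} (hy : y ∈ closure (𝔐.leaf x)) :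
    closure (𝔐.leaf y) ⊆ closure (𝔐.leaf x) :=
  closure_minimal (fun _ hz => 𝔐.closure_leaf_saturated hy hz) isClosed_closure

lemma mem_closure_leaf_iff (T T' : X n) :
    𝔐.ι T' ∈ closure (𝔐.leaf (𝔐.ι T)) ↔ T' ∈ closure (orbit T) := by
  constructor
  · intro h
    by_contra hT'
    rw [_root_.mem_closure_iff] at h
    obtain ⟨y, ⟨T'', hT'', h1⟩, h2⟩ := h _ (𝔐.isOpen_transversal (closure (orbit T))ᶜ
      isClosed_closure.isOpen_compl) ⟨T', hT', 𝔐.sameLeaf.refl _⟩
    apply hT''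
    apply subset_closure
    exact (𝔐.leaf_inter T T'').1 (𝔐.sameLeaf.trans h2 (𝔐.sameLeaf.symm h1))
  · intro h
    have h1 := image_closure_subset_closure_image 𝔐.continuous_ι (mem_image_of_mem 𝔐.ι h)
    refine closure_mono ?_ h1
    rintro _ ⟨T'', hT'', rfl⟩
    exact (𝔐.leaf_inter T T'').2 hT''

/-- Every leaf in a closure of a leaf at level `k` is at a level at most `k`. -/
lemma atLevel_le {k : ℕ} {x : 𝔐.M} (h : 𝔐.AtLevel k (closure (𝔐.leaf x))) {y : 𝔐.M}
    (hy : y ∈ closure (𝔐.leaf x)) : ∃ j ≤ k, 𝔐.AtLevel j (closure (𝔐.leaf y)) := by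
  by_cases hd : closure (𝔐.leaf x) ⊆ closure (𝔐.leaf y)
  · refine ⟨k, le_rfl, ?_⟩
    rwa [(𝔐.closure_leaf_subset hy).antisymm hd]
  · cases k with
    | zero =>
      rw [AtLevel] at h
      exact absurd (h y hy) hd
    | succ k =>
      rw [AtLevel] at h
      obtain ⟨j, hj⟩ := h.2.1 y hy hd
      exact ⟨j.1, by omega, hj⟩

/-- A set is at one level at most. -/
lemma atLevel_unique : ∀ (k j : ℕ) (A : Set 𝔐.M), 𝔐.AtLevel k A → 𝔐.AtLevel j A → j = k := by
  intro k
  induction k using Nat.strong_induction_on with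
  | _ k ih =>
    intro j A hk hj
    cases k with
    | zero =>
      cases j with
      | zero => rfl
      | succ j =>
        rw [AtLevel] at hk
        rw [AtLevel] at hj
        obtain ⟨x, hx, hx', _⟩ := hj.2.2
        exact absurd (hk x hx) hx'
    | succ k =>
      cases j with
      | zero =>
        rw [AtLevel] at hk
        rw [AtLevel] at hj
        obtain ⟨x, hx, hx', _⟩ := hk.2.2
        exact absurd (hj x hx) hx'
      | succ j =>
        rw [AtLevel] at hk
        rw [AtLevel] at hj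
        obtain ⟨x, hx, hx', hxk⟩ := hk.2.2
        obtain ⟨y, hy, hy', hyj⟩ := hj.2.2
        obtain ⟨i, hi⟩ := hk.2.1 y hy hy'
        obtain ⟨i', hi'⟩ := hj.2.1 x hx hx'
        have h1 := ih i.1 i.2 j _ hi hyj
        have h2 := ih k (Nat.lt_succ_self k) i'.1 _ hxk hi'
        have := i.2
        have := i'.2
        omega

/-- The inductive step. -/
lemma atLevel_succ {k : ℕ} {x y : 𝔐.M}
    (hxy : closure (𝔐.leaf x) ⊆ 𝔐.leaf x ∪ closure (𝔐.leaf y))
    (hy : y ∈ closure (𝔐.leaf x)) (hx : x ∉ closure (𝔐.leaf y))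
    (h : 𝔐.AtLevel k (closure (𝔐.leaf y))) : 𝔐.AtLevel (k + 1) (closure (𝔐.leaf x)) := by
  have hxx : x ∈ closure (𝔐.leaf x) := subset_closure (𝔐.mem_leaf_self x)
  have key : ∀ z, (z ∈ closure (𝔐.leaf x) ∧ ¬ closure (𝔐.leaf x) ⊆ closure (𝔐.leaf z)) ↔
      z ∈ closure (𝔐.leaf y) := by
    intro z
    constructor
    · rintro ⟨hz, hz'⟩
      rcases hxy hz with h1 | h1
      · exact absurd (by rw [𝔐.leaf_eq h1]) hz'
      · exact h1
    · intro hz
      exact ⟨𝔐.closure_leaf_subset hy hz, fun hcon => hx (𝔐.closure_leaf_subset hz (hcon hxx))⟩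
  rw [AtLevel]
  refine ⟨?_, ?_, ?_⟩
  · have h1 : {z | z ∈ closure (𝔐.leaf x) ∧ ¬ closure (𝔐.leaf x) ⊆ closure (𝔐.leaf z)} =
        closure (𝔐.leaf y) := by
      ext z
      exact key z
    rw [h1, closure_closure]
    exact ⟨𝔐.closure_leaf_subset hy, fun hcon => hx (hcon hxx)⟩
  · intro z hz hz'
    obtain ⟨j, hj, h2⟩ := 𝔐.atLevel_le h ((key z).1 ⟨hz, hz'⟩)
    exact ⟨⟨j, by omega⟩, h2⟩
  · have hyy : y ∈ closure (𝔐.leaf y) := subset_closure (𝔐.mem_leaf_self y)
    exact ⟨y, hy, ((key y).2 hyy).2, h⟩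

lemma atLevel_syllTree (ℓ : Bool → Fin n) (hℓ : ∀ c, ℓ c ≠ ℓ (!c)) : ∀ (k : ℕ) (c : Bool),
    𝔐.AtLevel k (closure (𝔐.leaf (𝔐.ι (syllTree ℓ k c))))
  | 0, c => by
    rw [AtLevel]
    intro x hx
    obtain ⟨T, hT⟩ := 𝔐.complete x
    have h1 := 𝔐.closure_leaf_saturated hx (𝔐.sameLeaf.symm hT)
    rw [𝔐.mem_closure_leaf_iff, closure_orbit_syllTree_zero] at h1
    have h2 : T = syllTree ℓ 0 c := h1
    rw [← h2, 𝔐.leaf_eq hT]
  | k + 1, c => by
    refine 𝔐.atLevel_succ (y := 𝔐.ι (syllTree ℓ k (!c))) ?_ ?_ ?_ (atLevel_syllTree ℓ hℓ k (!c))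
    · intro x hx
      obtain ⟨T, hT⟩ := 𝔐.complete x
      have h1 := 𝔐.closure_leaf_saturated hx (𝔐.sameLeaf.symm hT)
      rw [𝔐.mem_closure_leaf_iff] at h1
      rcases closure_orbit_subset ℓ hℓ k c h1 with h2 | h2
      · left
        exact 𝔐.sameLeaf.trans ((𝔐.leaf_inter _ _).2 h2) hT
      · right
        rw [← 𝔐.mem_closure_leaf_iff] at h2
        exact 𝔐.closure_leaf_saturated h2 hT
    · rw [𝔐.mem_closure_leaf_iff]
      exact syllTree_mem_closure ℓ hℓ k c
    · rw [𝔐.mem_closure_leaf_iff]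
      exact syllTree_not_mem_closure ℓ hℓ k c

end KenyonGhys

/-! ### Sanity check: the transversal itself, with the orbits as leaves, is such a space -/

section model

variable {n : ℕ}

lemma reroot_one (T : X n) : reroot T 1 T.2.1 = T := Subtype.ext (by ext x; simp [reroot])

lemma reroot_reroot (T : X n) (g h : FreeGroup (Fin n)) (hg : g ∈ T.1)
    (hh : h ∈ (reroot T g hg).1) : reroot (reroot T g hg) h hh = reroot T (g * h) hh :=
  Subtype.ext (by ext x; simp [reroot, mul_assoc])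

/-- The orbit equivalence relation. -/
def orbitSetoid (n : ℕ) : Setoid (X n) where
  r T T' := ∃ g, ∃ hg : g ∈ T.1, T' = reroot T g hg
  iseqv := by
    refine ⟨fun T => ⟨1, T.2.1, (reroot_one T).symm⟩, ?_, ?_⟩
    · rintro T _ ⟨g, hg, rfl⟩
      have h1 : g * g⁻¹ ∈ T.1 := by simpa using T.2.1
      refine ⟨g⁻¹, h1, ?_⟩
      rw [reroot_reroot T g g⁻¹ hg h1]
      apply Subtype.ext
      ext x
      simp [reroot]
    · rintro T _ _ ⟨g, hg, rfl⟩ ⟨h, hh, rfl⟩
      exact ⟨g * h, hh, reroot_reroot T g h hg hh⟩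

lemma isOpen_sat (U : Set (X n)) (hU : IsOpen U) :
    IsOpen {y | ∃ x ∈ U, (orbitSetoid n) x y} := by
  rw [isOpen_iff]
  rintro _ ⟨x, hx, g, hg, rfl⟩
  obtain ⟨r, hr⟩ := isOpen_iff.1 hU x hx
  refine ⟨r + FreeGroup.norm g, fun T' hT' => ?_⟩
  have h1 : g⁻¹ ∈ T'.1 := by
    apply (hT' g⁻¹ (by rw [norm_inv_eq]; omega)).1
    show g * g⁻¹ ∈ x.1
    simpa using x.2.1
  refine ⟨reroot T' g⁻¹ h1, hr _ ?_, ?_⟩
  · intro u hu
    have h2 := hT' (g⁻¹ * u) (by
      have := norm_mul_le g⁻¹ u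
      rw [norm_inv_eq] at this
      omega)
    have h3 : g⁻¹ * u ∈ (reroot x g hg).1 ↔ u ∈ x.1 := by simp [reroot]
    rw [← h3, h2]
    rfl
  · exact (orbitSetoid n).symm ⟨g⁻¹, h1, rfl⟩

/-- The transversal `X n` with the orbits as leaves: spaces of Kenyon-Ghys type exist. -/
def transversalModel (n : ℕ) : KenyonGhys.{0} n where
  M := X n
  top := topX n
  sameLeaf := orbitSetoid n
  isOpen_saturation := isOpen_sat
  ι := id
  continuous_ι := continuous_id
  isOpen_transversal := isOpen_sat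
  complete := fun y => ⟨y, (orbitSetoid n).refl y⟩
  leaf_inter := fun _ _ => Iff.rfl

end model

/-- **Graph matchbox manifolds exist at every finite level.** Let `n ≥ 2`, let `𝔐` be a foliated
space of Kenyon-Ghys type for `F_n`, and let `T_k = tree n hn k` be the tree of all products
`a ^ m₀ * b ^ m₁ * a ^ m₂ * ⋯` with `k + 1` alternating factors.  For every `k` the graph matchbox
manifold which is the closure of the leaf of `T_k` is at level `k`, and at no other level. -/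
theorem result (n : ℕ) (hn : 2 ≤ n) (𝔐 : KenyonGhys.{u} n) (k j : ℕ) :
    𝔐.AtLevel j (closure (𝔐.leaf (𝔐.ι (tree n hn k)))) ↔ j = k := by
  have hℓ : ∀ c, letter n hn c ≠ letter n hn (!c) := by
    intro c
    cases c <;> simp [letter]
  have h := 𝔐.atLevel_syllTree (letter n hn) hℓ k true
  exact ⟨fun hj => 𝔐.atLevel_unique k j _ h hj, fun hj => hj ▸ h⟩

end Pool.Agent.Results.MP_598c06_an.EveryFiniteLevel
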